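import Pool.Agent.Q255.FG.Stm

/-!
# Project FG: U2 and LT from DOM and U0
-/

set_option autoImplicit false

open MeasureTheory Finset

namespace Pool.Agent.Q162.FG

open Q289.PAM Pool.Agent.Q255.RM Pool.Agent.Q255.FG

/-- the bound of `U0` -/
noncomputable def UB (C α : ℝ) (k : ℕ) : ℝ :=
  Real.exp ((k : ℝ) ^ 2 * Real.log (1 + 1 / α) + C * (k : ℝ) ^ 2 + C * k * Real.log (1 + 1 / α))

lemma two_step (h1 : S_DOM) {C : ℝ} (h2 : ∀ (α : ℝ) (k N J : ℕ), 0 < α → α ≤ 1 → 1 ≤ k → 1 ≤ J →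
    ∫ ω, ‖∑ n ∈ ((primorial N) ^ J).divisors, (((n : ℝ) ^ (-(1 / 2 + α)) : ℝ) : ℂ) * f ω n‖ ^ (2 * k) ∂PT ≤
      Real.exp ((k : ℝ) ^ 2 * Real.log (1 + 1 / α) + C * (k : ℝ) ^ 2 + C * k * Real.log (1 + 1 / α)))
    (α : ℝ) (k N J : ℕ) (hα : 0 < α) (hα1 : α ≤ 1) (hk : 1 ≤ k) (hJ : 1 ≤ J) (A : Finset ℕ)
    (hA : A ⊆ ((primorial N) ^ J).divisors) (c : ℕ → ℂ) (K : ℝ) (hK : 0 ≤ K)
    (hc : ∀ n ∈ A, ‖c n‖ ≤ K * (n : ℝ) ^ (-(1 / 2 + α))) :
    ∫ ω, ‖∑ n ∈ A, c n * f ω n‖ ^ (2 * k) ∂PT ≤ K ^ (2 * k) * UB C α k := by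
  obtain ⟨hi, hii⟩ := h1
  have hpos : ∀ n ∈ ((primorial N) ^ J).divisors, 1 ≤ n := fun n hn => Nat.pos_of_mem_divisors hn
  have e1 := hi A c (fun n => K * (n : ℝ) ^ (-(1 / 2 + α))) k (fun n hn => ⟨hpos n (hA hn), hc n hn⟩)
  have e2 := hii {0} (fun _ => A) ((primorial N) ^ J).divisors (fun n => (n : ℝ) ^ (-(1 / 2 + α))) k hk
    (fun n hn => ⟨hpos n hn, by positivity⟩) (fun _ _ => hA) (by simp)
  rw [Finset.sum_singleton] at e2
  refine e1.trans ?_
  have e3 : ∀ ω, ‖∑ n ∈ A, ((K * (n : ℝ) ^ (-(1 / 2 + α)) : ℝ) : ℂ) * f ω n‖ ^ (2 * k) =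
      K ^ (2 * k) * ‖∑ n ∈ A, (((n : ℝ) ^ (-(1 / 2 + α)) : ℝ) : ℂ) * f ω n‖ ^ (2 * k) := by
    intro ω
    have : ∑ n ∈ A, ((K * (n : ℝ) ^ (-(1 / 2 + α)) : ℝ) : ℂ) * f ω n =
        (K : ℂ) * ∑ n ∈ A, (((n : ℝ) ^ (-(1 / 2 + α)) : ℝ) : ℂ) * f ω n := by
      rw [Finset.mul_sum]
      refine Finset.sum_congr rfl fun n _ => ?_
      push_cast
      ring
    rw [this, norm_mul, mul_pow, Complex.norm_real, Real.norm_of_nonneg hK]
  simp_rw [e3]
  rw [integral_const_mul]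
  exact mul_le_mul_of_nonneg_left (e2.trans (h2 α k N J hα hα1 hk hJ)) (by positivity)

lemma mem_div {N J n : ℕ} (hJ : N ≤ J) (hn : 1 ≤ n) (hnN : n ≤ N) : n ∈ ((primorial N) ^ J).divisors := by
  rw [Nat.mem_divisors]
  have hP := primorial_ne_zero N
  refine ⟨?_, pow_ne_zero _ hP⟩
  rw [← Nat.factorization_prime_le_iff_dvd (by omega) (pow_ne_zero _ hP)]
  intro p hp
  rw [Nat.factorization_pow]
  by_cases hpn : p ∣ n
  · have h1 : n.factorization p < n := Nat.factorization_lt p (by omega)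
    have h2 : p ∣ primorial N := by
      unfold primorial
      refine Finset.dvd_prod_of_mem (fun p => p) ?_
      rw [Finset.mem_filter, Finset.mem_range]
      exact ⟨by have := Nat.le_of_dvd (by omega) hpn; omega, hp⟩
    have h3 : 1 ≤ (primorial N).factorization p := (hp.dvd_iff_one_le_factorization hP).1 h2
    have h4 : (J • (primorial N).factorization) p = J * (primorial N).factorization p := rfl
    rw [h4]
    nlinarith
  · rw [Nat.factorization_eq_zero_of_not_dvd hpn]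
    exact Nat.zero_le _

theorem u2 (h1 : S_DOM) (h2 : S_U0) : S_U2 := by
  obtain ⟨C, hC, h2⟩ := h2
  refine ⟨C + 2, by linarith, fun k N hk hN hkN => ?_⟩
  have hk0 : (0 : ℝ) < k := by exact_mod_cast hk
  have hL : 0 < Real.log N := lt_of_lt_of_le hk0 hkN
  have hN0 : (0 : ℝ) < N := by exact_mod_cast (by omega : 0 < N)
  set α : ℝ := k / Real.log N with hα
  have hα0 : 0 < α := div_pos hk0 hL
  have hα1 : α ≤ 1 := by rw [hα, div_le_one hL]; exact hkN
  have key := two_step h1 h2 α k N N hα0 hα1 hk (by omega) (Icc 1 N)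
    (fun n hn => by rw [Finset.mem_Icc] at hn; exact mem_div le_rfl hn.1 hn.2)
    (fun n => (((Real.sqrt (n : ℕ))⁻¹ : ℝ) : ℂ)) ((N : ℝ) ^ α) (by positivity) ?_
  · refine key.trans ?_
    have e1 : ((N : ℝ) ^ α) ^ (2 * k) = Real.exp (2 * (k : ℝ) ^ 2) := by
      rw [Real.rpow_def_of_pos hN0, ← Real.exp_nat_mul]
      congr 1
      rw [hα]
      push_cast
      field_simp
    have e2 : 1 / α = Real.log N / k := by rw [hα, one_div_div]
    rw [e1, UB, ← Real.exp_add, e2, Real.exp_le_exp]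
    have h0 : 0 ≤ Real.log (1 + Real.log N / k) := Real.log_nonneg (by
      have : 0 ≤ Real.log N / k := by positivity
      linarith)
    have h3 : 0 ≤ (k : ℝ) * Real.log (1 + Real.log N / k) := by positivity
    nlinarith
  · intro n hn
    rw [Finset.mem_Icc] at hn
    have hn0 : (0 : ℝ) < n := by exact_mod_cast hn.1
    have hnN : (n : ℝ) ≤ N := by exact_mod_cast hn.2
    rw [Complex.norm_real, Real.norm_of_nonneg (by positivity), Real.sqrt_eq_rpow, ← Real.rpow_neg hn0.le]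
    calc (n : ℝ) ^ (-(1 / 2 : ℝ)) = (n : ℝ) ^ α * (n : ℝ) ^ (-(1 / 2 + α)) := by
          rw [← Real.rpow_add hn0]
          congr 1
          ring
      _ ≤ (N : ℝ) ^ α * (n : ℝ) ^ (-(1 / 2 + α)) := by
          refine mul_le_mul_of_nonneg_right ?_ (by positivity)
          exact Real.rpow_le_rpow hn0.le hnN hα0.le

/-- geometric series -/
lemma geo (z : ℂ) (hz : ‖z‖ ≤ 3 / 4) (J : ℕ) :
    ‖(1 - z)⁻¹ - ∑ j ∈ range (J + 1), z ^ j‖ ≤ 4 * (3 / 4) ^ (J + 1) ∧ ‖(1 - z)⁻¹‖ ≤ 4 := by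
  have h1 : (1 : ℝ) / 4 ≤ ‖1 - z‖ := by
    have := norm_sub_norm_le (1 : ℂ) z
    rw [norm_one] at this
    linarith
  have hne : 1 - z ≠ 0 := by
    intro h
    rw [h, norm_zero] at h1
    linarith
  have h2 : ‖(1 - z)⁻¹‖ ≤ 4 := by
    rw [norm_inv]
    rw [inv_le_comm₀ (by linarith) (by norm_num)]
    linarith
  refine ⟨?_, h2⟩
  have h3 : (1 - z)⁻¹ - ∑ j ∈ range (J + 1), z ^ j = (1 - z)⁻¹ * z ^ (J + 1) := by
    have := geom_sum_mul_neg z (J + 1)
    field_simp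
    linear_combination -this
  rw [h3, norm_mul, norm_pow]
  exact mul_le_mul h2 (pow_le_pow_left₀ (norm_nonneg _) hz _) (by positivity) (by norm_num)

lemma geo' (z : ℂ) (hz : ‖z‖ ≤ 3 / 4) (J : ℕ) : ‖∑ j ∈ range (J + 1), z ^ j‖ ≤ 4 := by
  calc ‖∑ j ∈ range (J + 1), z ^ j‖ ≤ ∑ j ∈ range (J + 1), (3 / 4 : ℝ) ^ j := by
        refine (norm_sum_le _ _).trans (Finset.sum_le_sum fun j _ => ?_)
        rw [norm_pow]
        exact pow_le_pow_left₀ (norm_nonneg _) hz _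
    _ ≤ 4 := by
        rw [geom_sum_eq (by norm_num)]
        have : (0 : ℝ) < (3 / 4) ^ (J + 1) := by positivity
        rw [div_le_iff_of_neg (by norm_num)]
        linarith

/-- uniform closeness of the Euler product and the truncated one -/
lemma close (P : Finset ℕ) (z : ℕ → ℂ) (hz : ∀ p ∈ P, ‖z p‖ ≤ 3 / 4) (J : ℕ) :
    ‖∏ p ∈ P, (1 - z p)⁻¹ - ∏ p ∈ P, ∑ j ∈ range (J + 1), z p ^ j‖ ≤
      (P.card : ℝ) * 4 ^ P.card * (3 / 4) ^ (J + 1) ∧ ‖∏ p ∈ P, (1 - z p)⁻¹‖ ≤ 4 ^ P.card := by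
  induction P using Finset.induction_on with
  | empty => simp
  | insert a s ha ih =>
    obtain ⟨i1, i2⟩ := ih fun p hp => hz p (Finset.mem_insert_of_mem hp)
    obtain ⟨g1, g2⟩ := geo (z a) (hz a (Finset.mem_insert_self _ _)) J
    have g3 := geo' (z a) (hz a (Finset.mem_insert_self _ _)) J
    rw [Finset.prod_insert ha, Finset.prod_insert ha, Finset.card_insert_of_notMem ha]
    constructor
    · have e : (1 - z a)⁻¹ * ∏ p ∈ s, (1 - z p)⁻¹ -
          (∑ j ∈ range (J + 1), z a ^ j) * ∏ p ∈ s, ∑ j ∈ range (J + 1), z p ^ j =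
          ((1 - z a)⁻¹ - ∑ j ∈ range (J + 1), z a ^ j) * ∏ p ∈ s, (1 - z p)⁻¹ +
          (∑ j ∈ range (J + 1), z a ^ j) * (∏ p ∈ s, (1 - z p)⁻¹ - ∏ p ∈ s, ∑ j ∈ range (J + 1), z p ^ j) := by
        ring
      rw [e]
      refine (norm_add_le _ _).trans ?_
      rw [norm_mul, norm_mul]
      have b1 : ‖(1 - z a)⁻¹ - ∑ j ∈ range (J + 1), z a ^ j‖ * ‖∏ p ∈ s, (1 - z p)⁻¹‖ ≤
          (4 * (3 / 4) ^ (J + 1)) * 4 ^ s.card := mul_le_mul g1 i2 (norm_nonneg _) (by positivity)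
      have b2 : ‖∑ j ∈ range (J + 1), z a ^ j‖ *
          ‖∏ p ∈ s, (1 - z p)⁻¹ - ∏ p ∈ s, ∑ j ∈ range (J + 1), z p ^ j‖ ≤
          4 * ((s.card : ℝ) * 4 ^ s.card * (3 / 4) ^ (J + 1)) := mul_le_mul g3 i1 (norm_nonneg _) (by norm_num)
      refine (add_le_add b1 b2).trans (le_of_eq ?_)
      push_cast
      ring
    · rw [norm_mul, pow_succ, mul_comm]
      exact mul_le_mul i2 g2 (norm_nonneg _) (by positivity)

lemma exists_J (M : ℕ) : ∃ J₀ : ℕ, ∀ J, J₀ ≤ J → (M : ℝ) * 4 ^ M * (3 / 4) ^ (J + 1) ≤ 1 / 2 := by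
  have h : Filter.Tendsto (fun J : ℕ => (M : ℝ) * 4 ^ M * (3 / 4) ^ (J + 1)) Filter.atTop (nhds ((M : ℝ) * 4 ^ M * 0)) :=
    Filter.Tendsto.const_mul _ ((tendsto_pow_atTop_nhds_zero_of_lt_one (by norm_num) (by norm_num)).comp
      (Filter.tendsto_add_atTop_nat 1))
  rw [mul_zero] at h
  have := h.eventually_le_const (show (0 : ℝ) < 1 / 2 by norm_num)
  rw [Filter.eventually_atTop] at this
  exact this

/-- the truncated Euler product is the sum over the divisors -/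
lemma euler (g : ℕ → ℂ) (g1 : g 1 = 1) (gm : ∀ m n, m ≠ 0 → n ≠ 0 → g (m * n) = g m * g n) (P : Finset ℕ)
    (hP : ∀ p ∈ P, p.Prime) (J : ℕ) :
    ∏ p ∈ P, ∑ j ∈ range (J + 1), g p ^ j = ∑ n ∈ ((∏ p ∈ P, p) ^ J).divisors, g n := by
  classical
  set G : ArithmeticFunction ℂ := ⟨fun n => if n = 0 then 0 else g n, by simp⟩ with hG
  have hGa : ∀ n, n ≠ 0 → G n = g n := fun n hn => by
    change (if n = 0 then 0 else g n) = g n
    rw [if_neg hn]
  have hGm : G.IsMultiplicative := by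
    rw [ArithmeticFunction.IsMultiplicative.iff_ne_zero]
    refine ⟨by rw [hGa 1 one_ne_zero, g1], fun {m n} hm hn _ => ?_⟩
    rw [hGa _ (mul_ne_zero hm hn), hGa m hm, hGa n hn, gm m n hm hn]
  have hGz : (G * (ArithmeticFunction.zeta : ArithmeticFunction ℂ)).IsMultiplicative :=
    hGm.mul ArithmeticFunction.isMultiplicative_zeta.natCast
  have e1 : (G * (ArithmeticFunction.zeta : ArithmeticFunction ℂ)) ((∏ p ∈ P, p) ^ J) =
      ∑ n ∈ ((∏ p ∈ P, p) ^ J).divisors, g n := by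
    rw [ArithmeticFunction.coe_mul_zeta_apply]
    refine Finset.sum_congr rfl fun n hn => hGa n ?_
    exact (Nat.pos_of_mem_divisors hn).ne'
  rw [← e1, ← Finset.prod_pow, hGz.map_prod (fun p => p ^ J) P]
  · refine Finset.prod_congr rfl fun p hp => ?_
    rw [ArithmeticFunction.coe_mul_zeta_apply, Nat.sum_divisors_prime_pow (hP p hp)]
    have hgp : ∀ j : ℕ, g (p ^ j) = g p ^ j := by
      intro j
      induction j with
      | zero => simp [g1]
      | succ j ih => rw [pow_succ, gm _ _ (pow_ne_zero _ (hP p hp).ne_zero) (hP p hp).ne_zero, ih, pow_succ]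
    refine Finset.sum_congr rfl fun j _ => ?_
    rw [hGa _ (pow_ne_zero _ (hP p hp).ne_zero), hgp]
  · intro p hp q hq hpq
    exact Nat.Coprime.pow _ _ ((Nat.coprime_primes (hP p hp) (hP q hq)).2 hpq)

lemma f_sum_cont (A : Finset ℕ) (c : ℕ → ℂ) (k : ℕ) : Continuous fun ω => ‖∑ n ∈ A, c n * f ω n‖ ^ k := by
  refine Continuous.pow (continuous_norm.comp ?_) k
  exact continuous_finsetSum _ fun n _ => continuous_const.mul (f_cont n)

lemma PT_prob : IsProbabilityMeasure PT := inferInstance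

lemma integ (F : Om → ℝ) (hF : Continuous F) : Integrable F PT :=
  hF.integrable_of_hasCompactSupport (HasCompactSupport.of_compactSpace F)

/-- Markov -/
lemma markov (F : Om → ℂ) (hF : Continuous F) (m : ℕ) :
    PT.real {ω | 1 / 2 ≤ ‖F ω‖} ≤ 2 ^ (2 * m) * ∫ ω, ‖F ω‖ ^ (2 * m) ∂PT := by
  have hc : Continuous fun ω => ‖F ω‖ ^ (2 * m) := (continuous_norm.comp hF).pow _
  have h1 := mul_meas_ge_le_integral_of_nonneg (μ := PT) (f := fun ω => ‖F ω‖ ^ (2 * m))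
    (Filter.Eventually.of_forall fun ω => pow_nonneg (norm_nonneg _) _) (integ _ hc) ((1 / 2) ^ (2 * m))
  have h2 : PT.real {ω | 1 / 2 ≤ ‖F ω‖} ≤ PT.real {ω | (1 / 2 : ℝ) ^ (2 * m) ≤ ‖F ω‖ ^ (2 * m)} := by
    refine measureReal_mono fun ω hω => ?_
    exact pow_le_pow_left₀ (by norm_num) (show (1 / 2 : ℝ) ≤ ‖F ω‖ from hω) _
  have h3 : PT.real {ω | (1 / 2 : ℝ) ^ (2 * m) ≤ ‖F ω‖ ^ (2 * m)} =
      2 ^ (2 * m) * ((1 / 2) ^ (2 * m) * PT.real {ω | (1 / 2 : ℝ) ^ (2 * m) ≤ ‖F ω‖ ^ (2 * m)}) := by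
    rw [← mul_assoc, ← mul_pow]
    norm_num
  rw [h3] at h2
  exact h2.trans (mul_le_mul_of_nonneg_left h1 (by positivity))

lemma asym (K : ℝ) : ∃ N₀ : ℕ, ∀ N : ℕ, N₀ ≤ N → 2 ≤ N ∧ 1 ≤ Real.log N ∧ K ≤ Real.log (Real.log N) ∧
    Real.log (Real.log N) * K ^ 2 ≤ Real.log N := by
  have t1 : Filter.Tendsto (fun N : ℕ => Real.log (N : ℝ)) Filter.atTop Filter.atTop :=
    Real.tendsto_log_atTop.comp tendsto_natCast_atTop_atTop
  have t2 : Filter.Tendsto (fun N : ℕ => Real.log (Real.log (N : ℝ))) Filter.atTop Filter.atTop :=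
    Real.tendsto_log_atTop.comp t1
  have o1 : ∀ᶠ x : ℝ in Filter.atTop, Real.log x * K ^ 2 ≤ x := by
    have h := Real.isLittleO_log_id_atTop.bound (show (0 : ℝ) < 1 / (K ^ 2 + 1) by positivity)
    filter_upwards [h, Filter.eventually_ge_atTop (1 : ℝ)] with x hx hx1
    have hl : 0 ≤ Real.log x := Real.log_nonneg hx1
    rw [Real.norm_of_nonneg hl, id, Real.norm_of_nonneg (by linarith : (0 : ℝ) ≤ x), one_div,
      ← div_eq_inv_mul, le_div_iff₀ (by positivity)] at hx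
    nlinarith
  have := ((t2.eventually_ge_atTop K).and ((t1.eventually_ge_atTop 1).and
    ((t1.eventually o1).and (Filter.eventually_ge_atTop 2))))
  rw [Filter.eventually_atTop] at this
  obtain ⟨N₀, h⟩ := this
  exact ⟨N₀, fun N hN => ⟨(h N hN).2.2.2, (h N hN).2.1, (h N hN).1, (h N hN).2.2.1⟩⟩

lemma final (C L : ℝ) (hC : 0 < C) (hL1 : 1 ≤ L) (hl : 3 + 5 * C ≤ Real.log L)
    (hL : Real.log L * (3 + 5 * C) ^ 2 ≤ L) (m : ℕ) (hm : m = ⌈4 * Real.sqrt (L / Real.log L)⌉₊) :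
    1 ≤ m ∧ 5 * Real.sqrt (Real.log L / L) / 2 ≤ 1 ∧
    -(m * (5 * Real.sqrt (Real.log L / L)) * L) + 2 * m * Real.log 2 +
      ((m : ℝ) ^ 2 * Real.log (1 + 1 / (5 * Real.sqrt (Real.log L / L) / 2)) + C * (m : ℝ) ^ 2 +
        C * m * Real.log (1 + 1 / (5 * Real.sqrt (Real.log L / L) / 2))) ≤ -(6 * L) := by
  set l := Real.log L with hl'
  set K : ℝ := 3 + 5 * C with hK
  set a := Real.sqrt (L / l) with ha
  have hK3 : 3 ≤ K := by linarith
  have hl0 : 0 < l := by linarith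
  have hL0 : 0 < L := by linarith
  have ha2 : a ^ 2 = L / l := Real.sq_sqrt (by positivity)
  have hLa : L = l * a ^ 2 := by rw [ha2]; field_simp
  have haK : K ≤ a := by
    rw [ha]
    apply Real.le_sqrt_of_sq_le
    rw [le_div_iff₀ hl0]
    linarith
  have ha0 : 0 < a := by linarith
  have e1 : Real.sqrt (l / L) = 1 / a := by
    rw [ha, ← one_div_div, Real.sqrt_div (by norm_num), Real.sqrt_one]
  rw [e1]
  have hm1 : 4 * a ≤ m := by rw [hm]; exact Nat.le_ceil _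
  have hm2 : (m : ℝ) ≤ 4 * a + 1 := by rw [hm]; exact (Nat.ceil_lt_add_one (by positivity)).le
  have hm0 : (0 : ℝ) < m := by linarith
  have hlog : Real.log (1 + 1 / (5 * (1 / a) / 2)) ≤ l / 2 := by
    have h1 : 1 + 1 / (5 * (1 / a) / 2) = 1 + 2 * a / 5 := by field_simp
    rw [h1]
    have h2 : 1 + 2 * a / 5 ≤ a := by linarith
    have h3 : Real.log a = Real.log (L / l) / 2 := by
      rw [ha, Real.log_sqrt (by positivity)]
    have h4 : L / l ≤ L := div_le_self hL0.le (by linarith)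
    calc Real.log (1 + 2 * a / 5) ≤ Real.log a := Real.log_le_log (by positivity) h2
      _ = Real.log (L / l) / 2 := h3
      _ ≤ Real.log L / 2 := by
          have := Real.log_le_log (by positivity) h4
          linarith
      _ = l / 2 := rfl
  have hlog0 : 0 ≤ Real.log (1 + 1 / (5 * (1 / a) / 2)) := Real.log_nonneg (by
    have : 0 ≤ 1 / (5 * (1 / a) / 2) := by positivity
    linarith)
  refine ⟨by exact_mod_cast hm0, ?_, ?_⟩
  · rw [div_le_one (by norm_num), mul_one_div, div_le_iff₀ ha0]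
    linarith
  · set g := Real.log (1 + 1 / (5 * (1 / a) / 2)) with hg
    have b1 : 20 * L ≤ m * (5 * (1 / a)) * L := by
      have : m * (5 * (1 / a)) * L = m * (5 * l * a) := by
        rw [hLa]; field_simp
      rw [this]
      have h2 : 4 * a * (5 * l * a) ≤ m * (5 * l * a) := mul_le_mul_of_nonneg_right hm1 (by positivity)
      have h3 : 4 * a * (5 * l * a) = 20 * L := by rw [hLa]; ring
      linarith
    have hmm : (m : ℝ) ^ 2 ≤ 16 * a ^ 2 + 8 * a + 1 := by nlinarith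
    have b2 : (m : ℝ) ^ 2 * g ≤ (16 * a ^ 2 + 8 * a + 1) * (l / 2) :=
      mul_le_mul hmm hlog hlog0 (by positivity)
    have b3 : C * (m : ℝ) ^ 2 ≤ C * (16 * a ^ 2 + 8 * a + 1) := mul_le_mul_of_nonneg_left hmm hC.le
    have b4 : C * m * g ≤ C * (4 * a + 1) * (l / 2) :=
      mul_le_mul (mul_le_mul_of_nonneg_left hm2 hC.le) hlog hlog0 (by positivity)
    have hlog2 : Real.log 2 ≤ 1 := by
      have := Real.log_two_lt_d9
      linarith
    have b5 : 2 * m * Real.log 2 ≤ 2 * (4 * a + 1) := by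
      have : 2 * (m : ℝ) * Real.log 2 ≤ 2 * m * 1 := mul_le_mul_of_nonneg_left hlog2 (by positivity)
      linarith
    -- the small terms
    have c1 : K * (l * a) ≤ L := by
      rw [hLa]
      nlinarith [mul_pos hl0 ha0]
    have c2 : K * a ^ 2 ≤ L := by
      rw [hLa]
      exact mul_le_mul_of_nonneg_right hl (by positivity)
    have c3 : K * l ≤ L := by
      have : l * 1 ≤ l * a := mul_le_mul_of_nonneg_left (by linarith) hl0.le
      nlinarith
    have c4 : K * a ≤ L := by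
      have : a * 1 ≤ a * a := mul_le_mul_of_nonneg_left (by linarith) ha0.le
      nlinarith
    have c5 : K * 1 ≤ L := by nlinarith
    have c6 : 4 * (l * a) + l / 2 + C * (16 * a ^ 2 + 8 * a + 1) + C * (2 * (l * a) + l / 2) + (8 * a + 2) ≤
        6 * L := by
      have hh : K * (4 * (l * a) + l / 2 + C * (16 * a ^ 2 + 8 * a + 1) + C * (2 * (l * a) + l / 2) + (8 * a + 2)) ≤
          K * (6 * L) := by
        have d1 := mul_le_mul_of_nonneg_left c1 hC.le
        have d2 := mul_le_mul_of_nonneg_left c2 hC.le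
        have d3 := mul_le_mul_of_nonneg_left c3 hC.le
        have d4 := mul_le_mul_of_nonneg_left c4 hC.le
        have d5 := mul_le_mul_of_nonneg_left c5 hC.le
        have d6 : K * (6 * L) = 18 * L + 30 * (C * L) := by rw [hK]; ring
        have d7 : 0 < C * L := by positivity
        rw [d6]
        nlinarith
      exact le_of_mul_le_mul_left hh (by linarith)
    nlinarith

theorem lt (h1 : S_DOM) (h2 : S_U0) : S_LT := by
  obtain ⟨C, hC, h2⟩ := h2
  obtain ⟨N₀, hN₀⟩ := asym (3 + 5 * C)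
  refine ⟨N₀, fun N hN a ha => ?_⟩
  obtain ⟨hN2, hL1, hl, hL⟩ := hN₀ N hN
  obtain ⟨ha1, ham, han⟩ := ha
  set L := Real.log N with hLdef
  obtain ⟨hm1, hα1, hfin⟩ := final C L hC hL1 hl hL _ rfl
  set m := ⌈4 * Real.sqrt (L / Real.log L)⌉₊ with hm
  set δ := dl N with hδ
  have hδ' : δ = 5 * Real.sqrt (Real.log L / L) := rfl
  have hlL : 0 < Real.log L := by linarith
  have hδ0 : 0 < δ := by
    rw [hδ']
    have : 0 < Real.log L / L := by positivity
    have := Real.sqrt_pos.2 this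
    linarith
  have hN0 : (0 : ℝ) < N := by exact_mod_cast (by omega : 0 < N)
  rw [← hδ'] at hα1 hfin
  set P := (range (N + 1)).filter Nat.Prime with hP
  have hPp : ∀ p ∈ P, p.Prime := fun p hp => (Finset.mem_filter.1 hp).2
  obtain ⟨J₀, hJ₀⟩ := exists_J P.card
  set J := max J₀ N with hJ
  have hJN : N ≤ J := le_max_right _ _
  have hJJ := hJ₀ J (le_max_left _ _)
  set D := ((primorial N) ^ J).divisors with hD
  have hprim : primorial N = ∏ p ∈ P, p := rfl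
  set A := D.filter fun n => N < n with hA
  -- the tail
  have hsplit : ∀ g : ℕ → ℂ, ∑ n ∈ D, g n = ∑ n ∈ Icc 1 N, g n + ∑ n ∈ A, g n := by
    intro g
    have : D = Icc 1 N ∪ A := by
      ext n
      rw [Finset.mem_union, hA, Finset.mem_filter, Finset.mem_Icc]
      constructor
      · intro hn
        have h0 : 1 ≤ n := Nat.pos_of_mem_divisors hn
        rcases le_or_gt n N with h | h
        · exact Or.inl ⟨h0, h⟩
        · exact Or.inr ⟨hn, h⟩
      · rintro (⟨h0, h⟩ | ⟨h, _⟩)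
        · exact mem_div hJN h0 h
        · exact h
    rw [this, Finset.sum_union]
    rw [Finset.disjoint_left]
    intro n hn hn'
    rw [Finset.mem_Icc] at hn
    have := (Finset.mem_filter.1 hn').2
    omega
  set c : ℕ → ℂ := fun n => a n * (((n : ℝ) ^ (-(1 / 2 + δ)) : ℝ) : ℂ) with hc
  have hcn : ∀ n ∈ A, ‖c n‖ ≤ (N : ℝ) ^ (-(δ / 2)) * (n : ℝ) ^ (-(1 / 2 + δ / 2)) := by
    intro n hn
    have hn1 : N < n := (Finset.mem_filter.1 hn).2
    have hn0 : (0 : ℝ) < n := by exact_mod_cast (by omega : 0 < n)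
    have hnN : (N : ℝ) ≤ n := by exact_mod_cast hn1.le
    rw [hc]
    simp only [norm_mul, Complex.norm_real]
    rw [Real.norm_of_nonneg (by positivity)]
    calc ‖a n‖ * (n : ℝ) ^ (-(1 / 2 + δ)) ≤ 1 * (n : ℝ) ^ (-(1 / 2 + δ)) :=
          mul_le_mul_of_nonneg_right (han n) (by positivity)
      _ = (n : ℝ) ^ (-(δ / 2)) * (n : ℝ) ^ (-(1 / 2 + δ / 2)) := by
          rw [one_mul, ← Real.rpow_add hn0]
          congr 1
          ring
      _ ≤ (N : ℝ) ^ (-(δ / 2)) * (n : ℝ) ^ (-(1 / 2 + δ / 2)) := by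
          refine mul_le_mul_of_nonneg_right ?_ (by positivity)
          exact Real.rpow_le_rpow_of_nonpos hN0 hnN (by linarith)
  have key := two_step h1 h2 (δ / 2) m N J (by linarith) hα1 hm1 (by omega) A (Finset.filter_subset _ _) c
    ((N : ℝ) ^ (-(δ / 2))) (by positivity) hcn
  -- the event
  have hsub : {ω | 1 ≤ ‖∑ n ∈ Icc 1 N, f ω n * a n * (((n : ℝ) ^ (-(1 / 2 + δ)) : ℝ) : ℂ) -
      ∏ p ∈ P, (1 - f ω p * a p * (((p : ℝ) ^ (-(1 / 2 + δ)) : ℝ) : ℂ))⁻¹‖} ⊆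
      {ω | 1 / 2 ≤ ‖∑ n ∈ A, c n * f ω n‖} := by
    intro ω hω
    rw [Set.mem_ofPred_eq] at hω ⊢
    set g : ℕ → ℂ := fun n => f ω n * a n * (((n : ℝ) ^ (-(1 / 2 + δ)) : ℝ) : ℂ) with hg
    have gm : ∀ x y, x ≠ 0 → y ≠ 0 → g (x * y) = g x * g y := by
      intro x y hx hy
      simp only [hg]
      rw [f_mul ω hx hy, ham]
      have : (((x * y : ℕ) : ℝ) ^ (-(1 / 2 + δ))) = (x : ℝ) ^ (-(1 / 2 + δ)) * (y : ℝ) ^ (-(1 / 2 + δ)) := by
        rw [Nat.cast_mul, Real.mul_rpow (Nat.cast_nonneg _) (Nat.cast_nonneg _)]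
      rw [this]
      push_cast
      ring
    have g1 : g 1 = 1 := by
      simp only [hg]
      rw [f_one, ha1]
      simp
    have he := euler g g1 gm P hPp J
    rw [← hprim, ← hD, hsplit g] at he
    have hz : ∀ p ∈ P, ‖g p‖ ≤ 3 / 4 := by
      intro p hp
      have hp2 : (2 : ℝ) ≤ p := by exact_mod_cast (hPp p hp).two_le
      simp only [hg, norm_mul, Complex.norm_real, norm_f]
      rw [Real.norm_of_nonneg (by positivity), one_mul]
      have h34 : (2 : ℝ) ^ (-(1 / 2 : ℝ)) ≤ 3 / 4 := by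
        rw [Real.rpow_neg (by norm_num), ← Real.sqrt_eq_rpow, inv_le_comm₀ (by positivity) (by norm_num)]
        apply Real.le_sqrt_of_sq_le
        norm_num
      calc ‖a p‖ * (p : ℝ) ^ (-(1 / 2 + δ)) ≤ 1 * (p : ℝ) ^ (-(1 / 2 + δ)) :=
            mul_le_mul_of_nonneg_right (han p) (by positivity)
        _ ≤ (p : ℝ) ^ (-(1 / 2 : ℝ)) := by
            rw [one_mul]
            exact Real.rpow_le_rpow_of_exponent_le (by linarith) (by linarith)
        _ ≤ (2 : ℝ) ^ (-(1 / 2 : ℝ)) := Real.rpow_le_rpow_of_nonpos (by norm_num) hp2 (by norm_num)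
        _ ≤ 3 / 4 := h34
    have hcl := (close P g hz J).1.trans hJJ
    rw [he] at hcl
    have hR : ∑ n ∈ A, c n * f ω n = ∑ n ∈ A, g n := by
      refine Finset.sum_congr rfl fun n _ => ?_
      simp only [hc, hg]
      ring
    rw [hR]
    have e1 : ∑ n ∈ Icc 1 N, g n - ∏ p ∈ P, (1 - g p)⁻¹ =
        -(∏ p ∈ P, (1 - g p)⁻¹ - (∑ n ∈ Icc 1 N, g n + ∑ n ∈ A, g n)) - ∑ n ∈ A, g n := by ring
    have e2 : 1 ≤ ‖∑ n ∈ Icc 1 N, g n - ∏ p ∈ P, (1 - g p)⁻¹‖ := hω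
    rw [e1] at e2
    have e3 := norm_sub_le (-(∏ p ∈ P, (1 - g p)⁻¹ - (∑ n ∈ Icc 1 N, g n + ∑ n ∈ A, g n))) (∑ n ∈ A, g n)
    rw [norm_neg] at e3
    linarith
  have hcont : Continuous fun ω => ∑ n ∈ A, c n * f ω n :=
    continuous_finsetSum _ fun n _ => continuous_const.mul (f_cont n)
  refine (measureReal_mono hsub).trans ?_
  refine (markov _ hcont m).trans ?_
  refine (mul_le_mul_of_nonneg_left key (by positivity)).trans ?_
  have x1 : ((N : ℝ) ^ (-(δ / 2))) ^ (2 * m) = Real.exp (-(m * δ * L)) := by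
    rw [Real.rpow_def_of_pos hN0, ← Real.exp_nat_mul]
    congr 1
    push_cast
    ring
  have x2 : (2 : ℝ) ^ (2 * m) = Real.exp (2 * m * Real.log 2) := by
    rw [← Real.rpow_natCast, Real.rpow_def_of_pos (by norm_num)]
    congr 1
    push_cast
    ring
  have x3 : (N : ℝ) ^ (-6 : ℝ) = Real.exp (-(6 * L)) := by
    rw [Real.rpow_def_of_pos hN0]
    congr 1
    ring
  rw [x1, x2, x3, UB, ← Real.exp_add, ← Real.exp_add, Real.exp_le_exp]
  linarith

end Pool.Agent.Q162.FG
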